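import Pool.Agent.Work.MP_223b32_tc.Interface

/-!
# Block FLA: the linear algebra, in bounded codimension
-/

namespace Pool.Agent.Work.TC.FLA

open Finset Polynomial Pool.Agent.Work.MP_223b32_ag Pool.Agent.Work.MP_223b32_ag_56
open ExteriorAlgebra Module Filter Topology

/-- The pairing lemma, bounded version. -/
theorem exists_pair {q : ℂ} (hq : q ≠ 0) {P : ℂ → Prop} {J : ℕ}
    (hcount : ∀ s : Multiset ℂ, (∀ z ∈ s, P z) → s.card ≤ 2 * J → ∀ M : ℕ, 0 < M →
      s.prod ^ (2 * M) = q ^ (M * s.card) → ∀ z, P z → s.count (q / z) = s.count z)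
    {n : ℕ} (hn : 0 < n) {s : Multiset ℂ} (hs : ∀ z ∈ s, P z ∨ z ^ (2 * n) = q ^ n) {j : ℕ}
    (hj : j + 1 ≤ J)
    (hcard : s.card = 2 * (j + 1)) (hprod : s.prod ^ n = q ^ (n * (j + 1))) :
    ∃ x y t, s = x ::ₘ y ::ₘ t ∧ x ^ n * y ^ n = q ^ n := by
  classical
  set s1 := s.filter fun z => ¬ z ^ (2 * n) = q ^ n with hs1
  set s2 := s.filter fun z => z ^ (2 * n) = q ^ n with hs2
  have hsum : s2 + s1 = s := Multiset.filter_add_not _ _
  have hs1P : ∀ z ∈ s1, P z := by
    intro z hz
    rw [hs1, Multiset.mem_filter] at hz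
    exact (hs z hz.1).resolve_right hz.2
  have hprod2 : ∀ t : Multiset ℂ, (∀ z ∈ t, z ^ (2 * n) = q ^ n) →
      t.prod ^ (2 * n) = q ^ (n * t.card) := by
    intro t
    induction t using Multiset.induction_on with
    | empty => intro _; simp
    | cons a t ih =>
      intro h
      rw [Multiset.prod_cons, mul_pow, h a (Multiset.mem_cons_self a t),
        ih fun z hz => h z (Multiset.mem_cons_of_mem hz), Multiset.card_cons, mul_add, mul_one,
        pow_add, mul_comm]
  have hs2pr : s2.prod ^ (2 * n) = q ^ (n * s2.card) :=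
    hprod2 s2 fun z hz => by rw [hs2, Multiset.mem_filter] at hz; exact hz.2
  have hcard' : s2.card + s1.card = 2 * (j + 1) := by rw [← Multiset.card_add, hsum, hcard]
  have hs1pr : s1.prod ^ (2 * n) = q ^ (n * s1.card) := by
    have h1 : s.prod ^ (2 * n) = q ^ (n * (s2.card + s1.card)) := by
      rw [mul_comm 2 n, pow_mul, hprod, ← pow_mul, hcard']
      congr 1; ring
    have h2 : s.prod = s2.prod * s1.prod := by rw [← hsum, Multiset.prod_add]
    rw [h2, mul_pow, hs2pr, mul_add, pow_add] at h1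
    exact mul_left_cancel₀ (pow_ne_zero _ hq) h1
  by_cases hne : s1 = 0
  · -- only supersingular eigenvalues
    have hall : ∀ z ∈ s, z ^ (2 * n) = q ^ n := by
      intro z hz
      rw [← hsum, hne, add_zero, hs2, Multiset.mem_filter] at hz
      exact hz.2
    obtain ⟨x, hx⟩ : ∃ x, x ∈ s := Multiset.card_pos_iff_exists_mem.1 (by rw [hcard]; omega)
    obtain ⟨s', hs'⟩ := Multiset.exists_cons_of_mem hx
    have hc' : s'.card = 2 * j + 1 := by
      rw [hs', Multiset.card_cons] at hcard; omega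
    obtain ⟨y, hy⟩ : ∃ y, y ∈ s' := Multiset.card_pos_iff_exists_mem.1 (by rw [hc']; omega)
    obtain ⟨t, ht⟩ := Multiset.exists_cons_of_mem hy
    subst ht
    have hxs : x ^ n * x ^ n = q ^ n := by
      rw [← pow_two, ← pow_mul, mul_comm n 2]; exact hall x hx
    have hys : y ^ n * y ^ n = q ^ n := by
      rw [← pow_two, ← pow_mul, mul_comm n 2]
      exact hall y (by rw [hs']; exact Multiset.mem_cons_of_mem hy)
    rcases mul_self_eq_mul_self_iff.1 (hxs.trans hys.symm) with h | h
    · exact ⟨x, y, t, hs', by rw [← h]; exact hxs⟩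
    · rcases Multiset.empty_or_exists_mem t with ht | ⟨z, hz⟩
      · subst ht
        refine ⟨x, y, 0, hs', ?_⟩
        have h4 : j = 0 := by simpa using hc'
        subst h4
        rw [hs'] at hprod
        simpa [mul_pow] using hprod
      · obtain ⟨t', rfl⟩ := Multiset.exists_cons_of_mem hz
        have hzs : z ^ n * z ^ n = q ^ n := by
          rw [← pow_two, ← pow_mul, mul_comm n 2]
          exact hall z (by rw [hs']; exact Multiset.mem_cons_of_mem (Multiset.mem_cons_of_mem hz))
        rcases mul_self_eq_mul_self_iff.1 (hxs.trans hzs.symm) with h' | h'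
        · refine ⟨x, z, y ::ₘ t', ?_, by rw [← h']; exact hxs⟩
          rw [hs', Multiset.cons_swap y z]
        · refine ⟨y, z, x ::ₘ t', ?_, ?_⟩
          · rw [hs', Multiset.cons_swap x y, Multiset.cons_swap x z]
          · have h5 : y ^ n = z ^ n := by
              rw [h] at h'; exact neg_injective h'
            rw [← h5]; exact hys
  · obtain ⟨z, hz⟩ := Multiset.exists_mem_of_ne_zero hne
    have hzP := hs1P z hz
    have h2 := hcount s1 hs1P (by omega) n hn hs1pr z hzP
    have h3 : q / z ∈ s1 := by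
      rw [← Multiset.count_pos, h2, Multiset.count_pos]; exact hz
    have hz0 : z ≠ 0 := by
      rintro rfl
      rw [div_zero] at h3
      -- then `0 ∈ s`, so the product vanishes
      have h4 : (0 : ℂ) ∈ s := by rw [← hsum]; exact Multiset.mem_add.2 (Or.inr h3)
      rw [Multiset.prod_eq_zero h4, zero_pow hn.ne'] at hprod
      exact pow_ne_zero _ hq hprod.symm
    have h5 : q / z ≠ z := by
      intro h
      have h6 : z * z = q := by rw [div_eq_iff hz0] at h; exact h.symm
      have h7 : z ^ (2 * n) = q ^ n := by rw [pow_mul, pow_two, h6]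
      rw [hs1, Multiset.mem_filter] at hz
      exact hz.2 h7
    have hzs : z ∈ s := by rw [← hsum]; exact Multiset.mem_add.2 (Or.inr hz)
    have hqs : q / z ∈ s := by rw [← hsum]; exact Multiset.mem_add.2 (Or.inr h3)
    obtain ⟨t, rfl⟩ := Multiset.exists_cons_of_mem hzs
    rw [Multiset.mem_cons] at hqs
    obtain ⟨t', rfl⟩ := Multiset.exists_cons_of_mem (hqs.resolve_left h5)
    refine ⟨z, q / z, t', rfl, ?_⟩
    rw [← mul_pow, mul_div_cancel₀ _ hz0]

/-- The pairing lemma for lists of indices, bounded version. -/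
theorem exists_pair_list {I : Type*} {q : ℂ} (hq : q ≠ 0) {P : ℂ → Prop} {J : ℕ}
    (hcount : ∀ s : Multiset ℂ, (∀ z ∈ s, P z) → s.card ≤ 2 * J → ∀ M : ℕ, 0 < M →
      s.prod ^ (2 * M) = q ^ (M * s.card) → ∀ z, P z → s.count (q / z) = s.count z)
    {n : ℕ} (hn : 0 < n) {lam : I → ℂ} (hlam : ∀ i, P (lam i) ∨ lam i ^ (2 * n) = q ^ n)
    (j : ℕ) (hj : j + 1 ≤ J) (l : List I) (hl : l.length = 2 * (j + 1))
    (hprod : (l.map fun i => lam i ^ n).prod = (q ^ n) ^ (j + 1)) :
    ∃ x y t, l.Perm (x :: y :: t) ∧ lam x ^ n * lam y ^ n = q ^ n := by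
  classical
  have h1 : (l.map fun i => lam i ^ n).prod = ((l.map lam).prod) ^ n := by
    clear hprod hl
    induction l with
    | nil => simp
    | cons a l ih => simp [mul_pow, ih]
  obtain ⟨x, y, t, hst, hxy⟩ := exists_pair hq hcount hn (s := ((l : Multiset I).map lam))
    (fun z hz => by
      obtain ⟨i, _, rfl⟩ := Multiset.mem_map.1 hz
      exact hlam i) (j := j) hj (by simpa using hl) (by
      rw [Multiset.map_coe, Multiset.prod_coe, ← h1, hprod, ← pow_mul])
  have hx : x ∈ (l : Multiset I).map lam := by rw [hst]; exact Multiset.mem_cons_self _ _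
  obtain ⟨i, hi, rfl⟩ := Multiset.mem_map.1 hx
  obtain ⟨M, hM⟩ := Multiset.exists_cons_of_mem hi
  rw [hM, Multiset.map_cons, Multiset.cons_inj_right] at hst
  have hy : y ∈ M.map lam := by rw [hst]; exact Multiset.mem_cons_self _ _
  obtain ⟨i', hi', rfl⟩ := Multiset.mem_map.1 hy
  obtain ⟨M', rfl⟩ := Multiset.exists_cons_of_mem hi'
  refine ⟨i, i', M'.toList, ?_, hxy⟩
  rw [← Multiset.coe_eq_coe, hM, ← Multiset.cons_coe, ← Multiset.cons_coe, Multiset.coe_toList]

section Basis

variable {V : Type*} [AddCommGroup V] [Module ℂ V] {I : Type*}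
  {b : Basis I ℂ V} {G : End ℂ V} {μ : I → ℂ} {Q : ℂ}

theorem prod_mem_pow (hG : ∀ i, G (b i) = μ i • b i) {J : ℕ}
    (hpair : ∀ (j : ℕ), j + 1 ≤ J → ∀ (l : List I), l.length = 2 * (j + 1) →
      (l.map μ).prod = Q ^ (j + 1) →
      ∃ x y t, l.Perm (x :: y :: t) ∧ μ x * μ y = Q) (hQ : Q ≠ 0) :
    ∀ (j : ℕ), j ≤ J → ∀ (l : List I), l.length = 2 * j → (l.map μ).prod = Q ^ j →
      (l.map fun i => ι ℂ (b i)).prod ∈ (tateClasses G Q 1) ^ j := by
  intro j
  induction j with
  | zero =>
    intro _ l hl _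
    rw [mul_zero, List.length_eq_zero_iff] at hl
    subst hl
    simp only [List.map_nil, List.prod_nil, pow_zero]
    exact Submodule.mem_one.2 ⟨1, map_one _⟩
  | succ j ih =>
    intro hjJ l hl hprod
    obtain ⟨x, y, t, hperm, hxy⟩ := hpair j hjJ l hl hprod
    have h1 : (t.map μ).prod = Q ^ j := by
      have h2 : (l.map μ).prod = ((x :: y :: t).map μ).prod := (hperm.map μ).prod_eq
      rw [hprod, List.map_cons, List.map_cons, List.prod_cons, List.prod_cons, ← mul_assoc,
        hxy, pow_succ'] at h2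
      exact (mul_left_cancel₀ hQ h2).symm
    have h3 : t.length = 2 * j := by
      have := hperm.length_eq
      simp only [List.length_cons] at this
      omega
    have h4 := ih (by omega) t h3 h1
    have h5 : ((x :: y :: t).map fun i => ι ℂ (b i)).prod ∈ (tateClasses G Q 1) ^ (j + 1) := by
      rw [pow_succ']
      simp only [List.map_cons, List.prod_cons, ← mul_assoc]
      exact Submodule.mul_mem_mul (mem_tateClasses_one (hG x) (hG y) hxy) h4
    have h6 := prod_perm (hperm.map b)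
    simp only [List.map_map] at h6
    have e : (ι ℂ ∘ b : I → ExteriorAlgebra ℂ V) = fun i => ι ℂ (b i) := rfl
    rw [e] at h6
    rcases h6 with h6 | h6
    · rw [h6]; exact h5
    · rw [h6]; exact Submodule.neg_mem _ h5

variable [LinearOrder I]

theorem tateClasses_eq_pow (hG : ∀ i, G (b i) = μ i • b i) {J : ℕ}
    (hpair : ∀ (j : ℕ), j + 1 ≤ J → ∀ (l : List I), l.length = 2 * (j + 1) →
      (l.map μ).prod = Q ^ (j + 1) →
      ∃ x y t, l.Perm (x :: y :: t) ∧ μ x * μ y = Q) (hQ : Q ≠ 0) (j : ℕ) (hj : j ≤ J) :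
    tateClasses G Q j = (tateClasses G Q 1) ^ j := by
  apply le_antisymm
  · rw [tateClasses_eq_span hG, Submodule.span_le]
    rintro _ ⟨⟨s, hs⟩, rfl⟩
    have h := prod_mem_pow hG hpair hQ j hj (List.ofFn (Set.powersetCard.ofFinEmbEquiv.symm s))
      (by simp) hs
    rw [List.map_ofFn] at h
    rw [SetLike.mem_coe]
    show ιMulti_family ℂ (2 * j) b s ∈ _
    rw [ιMulti_family, ιMulti_apply]
    exact h
  · exact pow_le_tateClasses G Q j

end Basis

end Pool.Agent.Work.TC.FLA

namespace Pool.Agent.Work.TC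

open Finset Polynomial Pool.Agent.Work.MP_223b32_ag Pool.Agent.Work.MP_223b32_ag_56
open ExteriorAlgebra Module Filter Topology

theorem stmt_FLA : Stmt_FLA := by
  intro V _ _ _ Φ hΦ q hq P J hcount n hn hP j hj
  obtain ⟨b, lam, hb⟩ := exists_eigenbasis hΦ
  have hG : ∀ i, (Φ ^ n) (b i) = lam i ^ n • b i := fun i => (hb i).pow_apply n
  have hq0 : (q : ℂ) ≠ 0 := by
    have : q ≠ 0 := by omega
    exact_mod_cast this
  have h1 : tateClasses (Φ ^ n) ((q : ℂ) ^ n) j = tateClasses (Φ ^ n) ((q : ℂ) ^ n) 1 ^ j := by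
    refine FLA.tateClasses_eq_pow (μ := fun i => lam i ^ n) hG (J := J) ?_
      (pow_ne_zero _ hq0) j hj
    intro i hi l hl hpr
    exact FLA.exists_pair_list hq0 hcount hn
      (fun i => hP _ (End.hasEigenvalue_of_hasEigenvector (hb i))) i hi l hl hpr
  have h2 := hasPoleOrder (μ := fun i => lam i ^ n) hG (Q := (q : ℝ) ^ n)
    (one_lt_pow₀ (by exact_mod_cast hq) hn.ne') j
  have h3 : ((q : ℂ) ^ n) = (((q : ℝ) ^ n : ℝ) : ℂ) := by push_cast; rfl
  rw [h3] at h1
  refine ⟨h1, ?_⟩
  rw [← h1]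
  exact h2

end Pool.Agent.Work.TC
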