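import Pool.Agent.Work.MP_223b32_tc.Defs
import Pool.Agent.Work.MP_223b32_ag.Pole

/-!
# Powers of hyperelliptic curves over a fixed finite field: interface

Every block is one Prop `Stmt_X`; see `BLUEPRINT.md` for the proofs.  The file
`Pool/Agent/Work/MP_223b32_tc/<X>.lean` ends with `theorem stmt_X : Stmt_X` (with the used blocks
as hypotheses, e.g. `theorem stmt_B4 (h : Stmt_MOORE) : Stmt_B4`).
-/

namespace Pool.Agent.Work.TC

open Finset Polynomial Pool.Agent.Work.MP_223b32_ag Pool.Agent.Work.MP_223b32_ag_56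

section Defs

variable {F K : Type} [Field F] [Field K] [Algebra F K]

/-- The value at `a` of the monic polynomial of degree `m` with lower coefficients `c`. -/
def val (a : K) (m : ℕ) (c : Fin m → F) : K :=
  a ^ m + ∑ i : Fin m, algebraMap F K (c i) * a ^ (i : ℕ)

/-- The monic polynomial of degree `m` with lower coefficients `c`. -/
noncomputable def mon (m : ℕ) (c : Fin m → F) : F[X] :=
  X ^ m + ∑ i : Fin m, C (c i) * X ^ (i : ℕ)

/-- The coefficient `b_m` of the `L`-function `∑ χ(h(a)) T ^ (deg h)` (`h` monic, `χ` the quadratic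
character of `K`). -/
noncomputable def bb (F : Type) {K : Type} [Field F] [Field K] [Algebra F K] [Fintype F]
    [Fintype K] [DecidableEq K] (a : K) (m : ℕ) : ℤ :=
  ∑ c : Fin m → F, quadraticChar K (val a m c)

/-- The bit `δ_k` with `χ(a ^ (q ^ k) - a) = (-1) ^ δ_k`. -/
noncomputable def dl (F : Type) {K : Type} [Field F] [Field K] [Algebra F K] [Fintype F]
    [Fintype K] [DecidableEq K] (a : K) (k : ℕ) : ℕ :=
  if quadraticChar K (a ^ (Fintype.card F ^ k) - a) = -1 then 1 else 0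

/-- The sum of a multiplicative function over the monic polynomials of degree `m`. -/
noncomputable def msum [Fintype F] (χ : F[X] →* ℤ) (m : ℕ) : ℤ := ∑ c : Fin m → F, χ (mon m c)

/-- The coefficients of the logarithmic derivative. -/
noncomputable def lam (χ : F[X] →* ℤ) (k : ℕ) : ℤ :=
  ∑ᶠ π ∈ {π : F[X] | π.Monic ∧ Irreducible π ∧ π.natDegree ∣ k},
    (π.natDegree : ℤ) * χ π ^ (k / π.natDegree)

end Defs

/-- `κ = 1` if `Q` is `3` or `5` modulo `8`. -/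
def kap (Q : ℕ) : ℕ := if Q % 8 = 3 ∨ Q % 8 = 5 then 1 else 0

/-- `ε = 1` if `Q` is `3` modulo `4`. -/
def eps (Q : ℕ) : ℕ := if Q % 4 = 3 then 1 else 0

/-- `Z(ζ) = ∑ r_k ζ ^ (n - k)`. -/
def ZZ {G : Type} [CommSemiring G] (n : ℕ) (r : ℕ → ℕ) (ζ : G) : G :=
  ∑ k ∈ Icc 1 n, (r k : G) * ζ ^ (n - k)

/-- `c_k(I)`. -/
def cc {G : Type} [CommSemiring G] (n : ℕ) (I : Finset G) (k : ℕ) : G :=
  ∑ ζ ∈ I, (ζ ^ k + ζ ^ (n - k) + ζ ^ (2 * k) + ζ ^ (2 * (n - k)))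

/-- The admissible sets of roots of unity: nontrivial `n`-th roots of unity, no two inverse. -/
def Adm {G : Type} [Field G] (n : ℕ) (I : Finset G) : Prop :=
  ∀ ζ ∈ I, ζ ^ n = 1 ∧ ζ ≠ 1 ∧ ζ⁻¹ ∉ I

/-! ### Part 1: the `L`-function -/

/-- MOORE: the product of all monic polynomials of degree `m` (Carlitz, Moore). -/
def Stmt_MOORE : Prop :=
  ∀ (F K : Type) [Field F] [Fintype F] [Field K] [Algebra F K] (a : K) (m : ℕ),
    (∀ i j : ℕ, i < j → j < m → a ^ (Fintype.card F ^ i) ≠ a ^ (Fintype.card F ^ j)) →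
      ∏ c : Fin m → F, val a m c =
        ∏ i ∈ range m, (a ^ (Fintype.card F ^ m) - a ^ (Fintype.card F ^ i))

/-- B4: the coefficients modulo `4`. -/
def Stmt_B4 : Prop :=
  ∀ (F K : Type) [Field F] [Fintype F] [Field K] [Fintype K] [DecidableEq K] [Algebra F K],
    ringChar F ≠ 2 → ∀ n : ℕ, n.Prime → Module.finrank F K = n →
    ∀ a : K, a ∉ (algebraMap F K).range → ∀ m < n,
      bb F a m ≡ (Fintype.card F : ℤ) ^ m + 2 * ∑ k ∈ Icc 1 m, (dl F a k : ℤ) [ZMOD 4]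

/-- B0: the `L`-function is a polynomial. -/
def Stmt_B0 : Prop :=
  ∀ (F K : Type) [Field F] [Fintype F] [Field K] [Fintype K] [DecidableEq K] [Algebra F K],
    ringChar F ≠ 2 → ∀ a : K, (minpoly F a).natDegree = Module.finrank F K →
      ∀ m, Module.finrank F K ≤ m → bb F a m = 0

/-- FE: the functional equation. -/
def Stmt_FE : Prop :=
  ∀ (F K : Type) [Field F] [Fintype F] [Field K] [Fintype K] [DecidableEq K] [Algebra F K],
    ringChar F ≠ 2 → Odd (Module.finrank F K) →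
    ∀ a : K, (minpoly F a).natDegree = Module.finrank F K → ∀ i j : ℕ,
      i + j + 1 = Module.finrank F K →
        bb F a (i + j) * bb F a j = (Fintype.card F : ℤ) ^ j * bb F a i

/-- EP: the Euler product, for any completely multiplicative function. -/
def Stmt_EP : Prop :=
  ∀ (F : Type) [Field F] [Fintype F] (χ : F[X] →* ℤ) (m : ℕ), 1 ≤ m →
    (m : ℤ) * msum χ m = ∑ k ∈ Icc 1 m, lam χ k * msum χ (m - k)

/-- LE: `lam` as a sum over the elements of the extension of degree `k`. -/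
def Stmt_LE : Prop :=
  ∀ (F E : Type) [Field F] [Fintype F] [Field E] [Fintype E] [Algebra F E] (χ : F[X] →* ℤ),
    ∑ x : E, χ (minpoly F x ^ (Module.finrank F E / (minpoly F x).natDegree)) =
      lam χ (Module.finrank F E)

/-- PC: reciprocity, from the resultant. -/
def Stmt_PC : Prop :=
  ∀ (F K E : Type) [Field F] [Fintype F] [DecidableEq F] [Field K] [Fintype K] [DecidableEq K]
    [Algebra F K] [Field E] [Fintype E] [DecidableEq E] [Algebra F E],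
    ringChar F ≠ 2 → Odd (Module.finrank F K) →
    ∀ a : K, (minpoly F a).natDegree = Module.finrank F K → ∀ x : E,
      quadraticChar E (aeval x (minpoly F a)) =
        quadraticChar F (-1) ^ Module.finrank F E *
          quadraticChar K
            (aeval a (minpoly F x ^ (Module.finrank F E / (minpoly F x).natDegree)))

/-- NW: Newton's identities. -/
def Stmt_NW : Prop :=
  ∀ (N : ℕ) (b Λ : ℕ → ℤ), b 0 = 1 → (∀ m : ℕ, N < m → b m = 0) →
    (∀ m : ℕ, 1 ≤ m → (m : ℤ) * b m = ∑ k ∈ Icc 1 m, Λ k * b (m - k)) →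
    ∃ β : Fin N → ℂ,
      ∏ i, (X - C (β i)) = ∑ m ∈ range (N + 1), C (b m : ℂ) * X ^ (N - m) ∧
      ∀ k : ℕ, 1 ≤ k → (Λ k : ℂ) = - ∑ i, β i ^ k

/-- FROB (from B0, EP, LE, PC, NW): the eigenvalues of the curve. -/
def Stmt_FROB : Prop :=
  ∀ (F K : Type) [Field F] [Fintype F] [DecidableEq F] [Field K] [Fintype K] [DecidableEq K]
    [Algebra F K], ringChar F ≠ 2 → Odd (Module.finrank F K) →
    ∀ a : K, (minpoly F a).natDegree = Module.finrank F K → ∀ N : ℕ,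
      N + 1 = Module.finrank F K → ∃ β : Fin N → ℂ,
        ∏ i, (X - C (β i)) = ∑ m ∈ range (N + 1), C (bb F a m : ℂ) * X ^ (N - m) ∧
        IsFrob F (minpoly F a) fun i => (quadraticChar F (-1) : ℂ) * β i

/-! ### Part 2: 2-adic part -/

/-- RHO: a place above `2` of the ring of algebraic integers. -/
def Stmt_RHO : Prop :=
  Nonempty (integralClosure ℤ ℂ →+* AlgebraicClosure (ZMod 2))

/-- RU: a root of unity which is `1` modulo `4` is `1`. -/
def Stmt_RU : Prop :=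
  ∀ (ω : ℂ) (N : ℕ), 0 < N → ω ^ N = 1 → ∀ x : integralClosure ℤ ℂ, ω = 1 + 4 * (x : ℂ) → ω = 1

/-- RED: the reduction of the eigenvalues. -/
def Stmt_RED : Prop :=
  ∀ (ρ : integralClosure ℤ ℂ →+* AlgebraicClosure (ZMod 2)) (N q : ℕ), Even N → Odd q →
    ∀ (b : ℕ → ℤ) (r : ℕ → ℕ), b 0 = 1 →
    (∀ m, m < N → b (m + 1) ≡ q * b m + 2 * r (m + 1) [ZMOD 4]) →
    (q * b N ≡ 1 + 2 * r (N + 1) [ZMOD 4]) →
    ∀ β : Fin N → ℂ, ∏ i, (X - C (β i)) = ∑ m ∈ range (N + 1), C (b m : ℂ) * X ^ (N - m) →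
      ∃ β' w : Fin N → integralClosure ℤ ℂ, (∀ i, (β' i : ℂ) = β i) ∧
        (∀ i, β' i ^ (N + 1) = 1 + 2 * w i) ∧
        (∀ i, ρ (w i) = ZZ (N + 1) r (ρ (β' i))) ∧
        (∀ i, ρ (β' i) ^ (N + 1) = 1 ∧ ρ (β' i) ≠ 1) ∧
        Function.Injective fun i => ρ (β' i)

/-- MOD8: a multiplicative relation gives a linear relation in characteristic `2`. -/
def Stmt_MOD8 : Prop :=
  ∀ (ρ : integralClosure ℤ ℂ →+* AlgebraicClosure (ZMod 2)) (N q : ℕ), Even N → Odd q →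
    ∀ (T : ℕ) (r : Fin T → ℕ → ℕ) (β : Fin T → Fin N → ℂ)
      (β' w : Fin T → Fin N → integralClosure ℤ ℂ),
      (∀ t i, (β' t i : ℂ) = β t i) →
      (∀ t i, β' t i ^ (N + 1) = 1 + 2 * w t i) →
      (∀ t i, ρ (w t i) = ZZ (N + 1) (r t) (ρ (β' t i))) →
      (∀ t i, ρ (β' t i) ^ (N + 1) = 1 ∧ ρ (β' t i) ≠ 1) →
      (∀ t, Function.Injective fun i => ρ (β' t i)) →
      (∀ t i, ∃ j, β t i * β t j = q) →
      ∀ s : Multiset ℂ, (∀ z ∈ s, ∃ t i, z = β t i) → ∀ M : ℕ, 0 < M →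
        s.prod ^ (2 * M) = (q : ℂ) ^ (M * s.card) →
        (∀ t i, s.count ((q : ℂ) / β t i) = s.count (β t i)) ∨
        ∃ I : Fin T → Finset (AlgebraicClosure (ZMod 2)), (∃ t, (I t).Nonempty) ∧
          ∑ t, (I t).card ≤ s.card ∧ (∀ t, Adm (N + 1) (I t)) ∧
          ∑ t, ∑ ζ ∈ I t, (ZZ (N + 1) (r t) ζ + ZZ (N + 1) (r t) ζ ^ 2) =
            ((∑ t, (I t).card * kap (q ^ (N + 1)) : ℕ) : AlgebraicClosure (ZMod 2))

/-- STAR: rewriting of the linear relation in terms of the first half of the bits. -/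
def Stmt_STAR : Prop :=
  ∀ (G : Type) [Field G] [CharP G 2] (g : ℕ) (e : ℕ) (r : ℕ → ℕ),
    (∀ k, 1 ≤ k → k ≤ g → r (2 * g + 1 - k) ≡ r k + e [MOD 2]) →
    ∀ I : Finset G, Adm (2 * g + 1) I →
      ∑ ζ ∈ I, (ZZ (2 * g + 1) r ζ + ZZ (2 * g + 1) r ζ ^ 2) =
        ∑ k ∈ Icc 1 g, (r k : G) * cc (2 * g + 1) I k +
          (e : G) * ∑ ζ ∈ I, ∑ k ∈ Icc 1 g, (ζ ^ k + ζ ^ (2 * k))

/-! ### Part 3: counting -/

/-- HD: Hasse derivatives of `H ^ N r`. -/
def Stmt_HD : Prop :=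
  ∀ (E : Type) [Field E] (H : E[X]) (d : ℕ), 1 ≤ d → H.natDegree ≤ d → ∀ N k : ℕ, k ≤ N →
    ∃ T : E[X] →ₗ[E] E[X], (∀ r, hasseDeriv k (H ^ N * r) = H ^ (N - k) * T r) ∧
      ∀ (D : ℕ) (r : E[X]), r ∈ degreeLT E D → T r ∈ degreeLT E (D + k * (d - 1))

/-- NV: the nonvanishing in Stepanov's method. -/
def Stmt_NV : Prop :=
  ∀ (E : Type) [Field E] [Fintype E], ringChar E ≠ 2 → ∀ (H : E[X]) (d D J : ℕ),
    H.natDegree ≤ d → 2 * D + d ≤ Fintype.card E → H.eval 0 ≠ 0 →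
    (¬ ∃ (c : E) (R : E[X]), H = C c * R ^ 2) → ∀ r s : Fin J → E[X],
    (∀ j, r j ∈ degreeLT E D) → (∀ j, s j ∈ degreeLT E D) →
    ∑ j, (r j + s j * H ^ (Fintype.card E / 2)) * X ^ ((j : ℕ) * Fintype.card E) = 0 →
      (∀ j, r j = 0) ∧ ∀ j, s j = 0

/-- EXI (from HD): the auxiliary polynomial of Stepanov's method (`u = (|E| - 1) / 2`). -/
def Stmt_EXI : Prop :=
  ∀ (E : Type) [Field E] [Fintype E], ringChar E ≠ 2 → ∀ (H : E[X]) (d D J l : ℕ) (a : E),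
    1 ≤ d → H.natDegree ≤ d → l ≤ Fintype.card E → 1 ≤ J →
    2 * (l * (D + J)) + (d - 1) * (l * (l - 1)) < 4 * (D * J) →
    ∃ r s : Fin J → E[X], (∀ j, r j ∈ degreeLT E D) ∧ (∀ j, s j ∈ degreeLT E D) ∧
      (∃ j, r j ≠ 0 ∨ s j ≠ 0) ∧
      ∀ x : E, H.eval x ^ (Fintype.card E / 2) = a → ∀ k < l,
        (hasseDeriv k (H ^ l * ∑ j, (r j + s j * H ^ (Fintype.card E / 2)) *
          X ^ ((j : ℕ) * Fintype.card E))).eval x = 0

/-- NA (from NV, EXI): the upper bound of Stepanov. -/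
def Stmt_NA : Prop :=
  ∀ (E : Type) [Field E] [Fintype E], ringChar E ≠ 2 → ∀ (H : E[X]) (d : ℕ) (a : E),
    1 ≤ d → H.natDegree ≤ d → 100 * d ^ 2 ≤ Fintype.card E → H.eval 0 ≠ 0 →
    (¬ ∃ (c : E) (R : E[X]), H = C c * R ^ 2) → a ≠ 0 →
      (Nat.card {x : E // H.eval x ^ (Fintype.card E / 2) = a} : ℝ) ≤
        (Fintype.card E : ℝ) / 2 + 3 * d * √(Fintype.card E)

/-- WEIL (from NA): the Weil bound for the quadratic character of any finite field, linear in the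
degree. -/
def Stmt_WEIL : Prop :=
  ∀ (E : Type) [Field E] [Fintype E] [DecidableEq E], ringChar E ≠ 2 →
    ∀ (H : E[X]) (d : ℕ), 1 ≤ d → H.natDegree ≤ d → 100 * d ^ 2 ≤ Fintype.card E →
      (¬ ∃ (c : E) (R : E[X]), H = C c * R ^ 2) →
      |((∑ x : E, quadraticChar E (H.eval x) : ℤ) : ℝ)| ≤ 8 * d * √(Fintype.card E)

/-- SQF: the polynomials of the counting are not squares. -/
def Stmt_SQF : Prop :=
  ∀ (F K : Type) [Field F] [Fintype F] [Field K] [Fintype K] [Algebra F K] (S : Finset ℕ),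
    S.Nonempty → (∀ k ∈ S, 1 ≤ k) →
      ¬ ∃ (c : K) (R : K[X]), ∏ k ∈ S, (X ^ (Fintype.card F ^ k) - X : K[X]) = C c * R ^ 2

/-- LIN: the rank of the linear condition. -/
def Stmt_LIN : Prop :=
  ∀ (G : Type) [Field G] [Fintype G] [Algebra (ZMod 2) G] (n m : ℕ), n.Prime →
    n ≠ 2 → m = orderOf (2 : ZMod n) → Fintype.card G = 2 ^ m → ∀ I : Finset G, I.Nonempty →
    Adm n I → ∃ d : ℕ, m ≤ 2 * I.card * d ∧
      Nat.card {y : G // ∀ k ∈ Icc 1 (n / 2),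
        Algebra.trace (ZMod 2) G (y * cc n I k) = 0} * 2 ^ d ≤ 2 ^ (m + 1)

/-- CHS (from WEIL, SQF): the correlations of the bits. -/
def Stmt_CHS : Prop :=
  ∀ (F K : Type) [Field F] [Fintype F] [Field K] [Fintype K] [DecidableEq K] [Algebra F K],
    ringChar F ≠ 2 → ∀ u t : ℕ, Module.finrank F K = 2 * (u + t) + 1 → 2 ≤ t →
    ∀ S : Finset ℕ, S.Nonempty → (∀ k ∈ S, 1 ≤ k ∧ k ≤ u) →
      |((∑ a : K, ∏ k ∈ S, quadraticChar K (a ^ (Fintype.card F ^ k) - a) : ℤ) : ℝ)| ≤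
        12 * (Fintype.card F : ℝ) ^ u * √(Fintype.card K)

/-- COUNT (from CHS): the number of `a` with one linear condition. -/
def Stmt_COUNT : Prop :=
  ∀ (F K : Type) [Field F] [Fintype F] [Field K] [Fintype K] [DecidableEq K] [Algebra F K],
    ringChar F ≠ 2 → ∀ n : ℕ, n.Prime → n ≠ 2 → Module.finrank F K = n →
    ∀ (G : Type) [Field G] [Fintype G] [Algebra (ZMod 2) G] (m d : ℕ) (c : ℕ → G)
      (c' : G), Fintype.card G = 2 ^ m →
      Nat.card {y : G // ∀ k ∈ Icc 1 (n / 2),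
        Algebra.trace (ZMod 2) G (y * c k) = 0} * 2 ^ d ≤ 2 ^ (m + 1) →
      ∀ t : ℕ, 2 ≤ t →
        (Nat.card {a : K // a ∉ (algebraMap F K).range ∧
          ∑ k ∈ Icc 1 (n / 2), (dl F a k : G) * c k = c'} : ℝ) ≤
          (Fintype.card F : ℝ) ^ n * (2 ^ (t + 1) / 2 ^ d + 12 / 3 ^ t)

/-- DSYM: the symmetry of the bits. -/
def Stmt_DSYM : Prop :=
  ∀ (F K : Type) [Field F] [Fintype F] [Field K] [Fintype K] [DecidableEq K] [Algebra F K],
    ringChar F ≠ 2 → ∀ n : ℕ, n.Prime → n ≠ 2 → Module.finrank F K = n →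
    ∀ a : K, a ∉ (algebraMap F K).range → ∀ k, 1 ≤ k → k < n →
      dl F a (n - k) ≡ dl F a k + eps (Fintype.card F) [MOD 2]

/-- The bad `r`-tuples of elements of `K`. -/
def Bad (F : Type) {K : Type} [Field F] [Fintype F] [Field K] [Fintype K] [Algebra F K]
    (J N : ℕ) {T : ℕ} (a : Fin T → K) : Prop :=
  ¬ TateUpTo F J N fun t => minpoly F (a t)

/-- ONE (from FROB, B4, FE, RHO, RU, RED, MOD8, STAR, DSYM, FLA): a bad tuple satisfies one of the
linear conditions, in the field with `2 ^ m` elements. -/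
def Stmt_ONE : Prop :=
  ∀ (F K : Type) [Field F] [Fintype F] [Field K] [Fintype K] [DecidableEq K] [Algebra F K],
    ringChar F ≠ 2 → ∀ n : ℕ, n.Prime → n ≠ 2 → Module.finrank F K = n →
    ∀ (G : Type) [Field G] [Fintype G] [Algebra (ZMod 2) G],
      Fintype.card G = 2 ^ orderOf (2 : ZMod n) → ∀ T J : ℕ,
      ∃ c' : (Fin T → Finset G) → G,
      ∀ a : Fin T → K, (∀ t, a t ∉ (algebraMap F K).range) → Bad F J (n - 1) a →
        ∃ I : Fin T → Finset G, (∃ t, (I t).Nonempty) ∧ ∑ t, (I t).card ≤ 2 * J ∧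
          (∀ t, Adm n (I t)) ∧
          ∑ t, ∑ k ∈ Icc 1 (n / 2), (dl F (a t) k : G) * cc n (I t) k = c' I

/-- SUM (from ONE, LIN, COUNT): the union bound. -/
def Stmt_SUM : Prop :=
  ∀ (F K : Type) [Field F] [Fintype F] [Field K] [Fintype K] [Algebra F K],
    ringChar F ≠ 2 → ∀ n : ℕ, n.Prime → n ≠ 2 → Module.finrank F K = n → ∀ T J : ℕ, 1 ≤ T →
    1 ≤ J →
      (Nat.card {a : Fin T → K // (∀ t, a t ∉ (algebraMap F K).range) ∧ Bad F J (n - 1) a} : ℝ) ≤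
        40 * ((n : ℝ) * T) ^ (2 * J) * 2 ^ (-(orderOf (2 : ZMod n) : ℝ) / (8 * J)) *
          (Nat.card {a : K // a ∉ (algebraMap F K).range} : ℝ) ^ T

/-- EXT: existence of the extension of degree `n`. -/
def Stmt_EXT : Prop :=
  ∀ (F : Type) [Field F] [Fintype F] (n : ℕ), 0 < n →
    ∃ (K : Type) (_ : Field K) (_ : Fintype K) (_ : Algebra F K), Module.finrank F K = n

/-- ROOTS: from elements to polynomials. -/
def Stmt_ROOTS : Prop :=
  ∀ (F K : Type) [Field F] [Fintype F] [Field K] [Fintype K] [Algebra F K] (n : ℕ), n.Prime →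
    Module.finrank F K = n → ∀ (T : ℕ) (P : (Fin T → F[X]) → Prop),
      n ^ T * Set.ncard {f : Fin T → F[X] | (∀ t, f t ∈ irr F n) ∧ P f} =
        Nat.card {a : Fin T → K // (∀ t, a t ∉ (algebraMap F K).range) ∧
          P fun t => minpoly F (a t)}

/-- FLA: the linear algebra (bounded version of `final`). -/
def Stmt_FLA : Prop :=
  ∀ (V : Type) [AddCommGroup V] [Module ℂ V] [Module.Finite ℂ V] (Φ : Module.End ℂ V),
    Φ.IsSemisimple → ∀ (q : ℕ), 1 < q → ∀ (P : ℂ → Prop) (J : ℕ),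
    (∀ s : Multiset ℂ, (∀ z ∈ s, P z) → s.card ≤ 2 * J → ∀ M : ℕ, 0 < M →
      s.prod ^ (2 * M) = (q : ℂ) ^ (M * s.card) →
      ∀ z, P z → s.count ((q : ℂ) / z) = s.count z) →
    ∀ n : ℕ, 0 < n → (∀ μ, Φ.HasEigenvalue μ → P μ ∨ μ ^ (2 * n) = (q : ℂ) ^ n) →
      ∀ j ≤ J, Holds (Φ ^ n) ((q : ℝ) ^ n) j

/-- ORD: few primes `n` for which `2` has small order. -/
def Stmt_ORD : Prop :=
  ∀ y : ℕ, {n : ℕ | n.Prime ∧ n ≠ 2 ∧ orderOf (2 : ZMod n) ≤ y}.Finite ∧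
    {n : ℕ | n.Prime ∧ n ≠ 2 ∧ orderOf (2 : ZMod n) ≤ y}.ncard ≤ y ^ 2

end Pool.Agent.Work.TC
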