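import Pool.Agent.Work.MP_223b32_tc.Interface

/-!
# Block MOD8: a multiplicative relation gives a linear relation in characteristic `2`
-/

namespace Pool.Agent.Work.TC.MOD8

open Finset Polynomial Pool.Agent.Work.MP_223b32_ag Pool.Agent.Work.MP_223b32_ag_56

/-- Division by the largest common power of `2`. -/
theorem exists_odd {ι : Type*} (X : Finset ι) :
    ∀ (N : ℕ) (d : ι → ℕ), ∑ z ∈ X, d z ≤ N → (∃ z ∈ X, d z ≠ 0) →
      ∃ (v : ℕ) (e : ι → ℕ), (∀ z ∈ X, d z = 2 ^ v * e z) ∧ ∃ z ∈ X, Odd (e z) := by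
  intro N
  induction N with
  | zero =>
    rintro d hN ⟨z, hz, hdz⟩
    have h1 := single_le_sum (f := d) (fun i _ => Nat.zero_le (d i)) hz
    omega
  | succ N ih =>
    rintro d hN ⟨z, hz, hdz⟩
    by_cases hodd : ∃ z ∈ X, Odd (d z)
    · exact ⟨0, d, fun z _ => by rw [pow_zero, one_mul], hodd⟩
    push Not at hodd
    have heven : ∀ z ∈ X, d z = 2 * (d z / 2) := by
      intro z hz
      have h1 := (Nat.not_odd_iff_even.1 (hodd z hz))
      obtain ⟨k, hk⟩ := h1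
      omega
    have hsum : ∑ z ∈ X, d z = 2 * ∑ z ∈ X, (d z / 2) := by
      rw [mul_sum]
      exact sum_congr rfl heven
    have hpos : d z ≤ ∑ z ∈ X, d z := single_le_sum (f := d) (fun i _ => Nat.zero_le (d i)) hz
    obtain ⟨v, e, he, hex⟩ := ih (fun z => d z / 2) (by omega) ⟨z, hz, by
      have := heven z hz
      omega⟩
    refine ⟨v + 1, e, fun z hz => ?_, hex⟩
    have h1 := he z hz
    rw [heven z hz, h1, pow_succ]
    ring

/-- Removal of the trivial part of a relation. -/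
theorem relation {q : ℕ} (hq : q ≠ 0) (Z : Finset ℂ) (hσ : ∀ z ∈ Z, (q : ℂ) / z ∈ Z)
    (h0 : ∀ z ∈ Z, z ≠ 0) (s : Multiset ℂ) (hs : ∀ z ∈ s, z ∈ Z) {M : ℕ}
    (h : s.prod ^ (2 * M) = (q : ℂ) ^ (M * s.card)) :
    (∏ z ∈ Z, z ^ (s.count z - s.count ((q : ℂ) / z))) ^ (2 * M) =
      (q : ℂ) ^ (M * ∑ z ∈ Z, (s.count z - s.count ((q : ℂ) / z))) := by
  have hq0 : (q : ℂ) ≠ 0 := by exact_mod_cast hq
  set c : ℂ → ℕ := fun z => s.count z with hc
  set mm : ℂ → ℕ := fun z => min (c z) (c ((q : ℂ) / z)) with hmm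
  set d : ℂ → ℕ := fun z => c z - c ((q : ℂ) / z) with hd
  have hcd : ∀ z, c z = mm z + d z := by
    intro z
    simp only [hmm, hd]
    omega
  have hσσ : ∀ z ∈ Z, (q : ℂ) / ((q : ℂ) / z) = z := by
    intro z hz
    rw [div_div_cancel₀ hq0]
  have hmσ : ∀ z ∈ Z, mm ((q : ℂ) / z) = mm z := by
    intro z hz
    simp only [hmm]
    rw [hσσ z hz, min_comm]
  have hprod : s.prod = (∏ z ∈ Z, z ^ mm z) * ∏ z ∈ Z, z ^ d z := by
    rw [prod_multiset_count_of_subset s Z (fun z hz => hs z (Multiset.mem_toFinset.1 hz)),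
      ← prod_mul_distrib]
    refine prod_congr rfl fun z _ => ?_
    rw [← pow_add, ← hcd]
  have hcard : s.card = ∑ z ∈ Z, mm z + ∑ z ∈ Z, d z := by
    rw [← Multiset.sum_count_eq_card (s := Z) hs, ← sum_add_distrib]
    exact sum_congr rfl fun z _ => hcd z
  have hA : (∏ z ∈ Z, z ^ mm z) ^ 2 = (q : ℂ) ^ ∑ z ∈ Z, mm z := by
    have h1 : ∏ z ∈ Z, z ^ mm z = ∏ z ∈ Z, ((q : ℂ) / z) ^ mm z := by
      refine prod_nbij' (fun z => (q : ℂ) / z) (fun z => (q : ℂ) / z) hσ hσ hσσ hσσ ?_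
      intro z hz
      rw [hσσ z hz, hmσ z hz]
    rw [pow_two]
    nth_rewrite 2 [h1]
    rw [← prod_mul_distrib, ← prod_pow_eq_pow_sum]
    refine prod_congr rfl fun z hz => ?_
    rw [← mul_pow, mul_div_cancel₀ _ (h0 z hz)]
  rw [hprod, hcard, mul_pow, pow_mul (∏ z ∈ Z, z ^ mm z), hA, ← pow_mul, mul_comm _ M, mul_add,
    pow_add] at h
  exact mul_left_cancel₀ (pow_ne_zero _ hq0) h

section Ring

variable {A : Type*} [CommRing A]

theorem pow_form (y : A) (k : ℕ) : ∃ V : A, (1 + 4 * y) ^ k = 1 + 4 * (k * y + 2 * V) := by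
  induction k with
  | zero => exact ⟨0, by simp⟩
  | succ k ih =>
    obtain ⟨V, hV⟩ := ih
    refine ⟨V + 2 * y * (k * y + 2 * V), ?_⟩
    rw [pow_succ, hV]
    push_cast
    ring

theorem prod_form {ι : Type*} (S : Finset ι) (Y : ι → A) (e : ι → ℕ) :
    ∃ V : A, ∏ z ∈ S, (1 + 4 * Y z) ^ e z = 1 + 4 * (∑ z ∈ S, (e z : A) * Y z + 2 * V) := by
  classical
  induction S using Finset.induction_on with
  | empty => exact ⟨0, by simp⟩
  | insert a S ha ih =>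
    obtain ⟨V, hV⟩ := ih
    obtain ⟨V', hV'⟩ := pow_form (Y a) (e a)
    refine ⟨V + V' + 2 * (e a * Y a + 2 * V') * (∑ z ∈ S, (e z : A) * Y z + 2 * V), ?_⟩
    rw [prod_insert ha, sum_insert ha, hV, hV']
    ring

end Ring

theorem kap_spec (Q : ℕ) (hQ : Odd Q) : ∃ σ k : ℤ, (σ = 1 ∨ σ = -1) ∧
    (Q : ℤ) = σ * (1 + 4 * k) ∧ k ≡ kap Q [ZMOD 2] := by
  obtain ⟨j, hj⟩ := hQ
  have h8 : Q % 8 = 1 ∨ Q % 8 = 3 ∨ Q % 8 = 5 ∨ Q % 8 = 7 := by omega
  have hdiv : (Q : ℤ) = 8 * ((Q / 8 : ℕ) : ℤ) + ((Q % 8 : ℕ) : ℤ) := by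
    have := Nat.div_add_mod Q 8
    exact_mod_cast this.symm
  rcases h8 with h | h | h | h
  · refine ⟨1, 2 * ((Q / 8 : ℕ) : ℤ), Or.inl rfl, ?_, ?_⟩
    · rw [hdiv, h]; push_cast; ring
    · rw [kap, if_neg (by omega)]
      show _ % 2 = _ % 2
      push_cast
      omega
  · refine ⟨-1, -1 - 2 * ((Q / 8 : ℕ) : ℤ), Or.inr rfl, ?_, ?_⟩
    · rw [hdiv, h]; push_cast; ring
    · rw [kap, if_pos (by omega)]
      show _ % 2 = _ % 2
      push_cast
      omega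
  · refine ⟨1, 1 + 2 * ((Q / 8 : ℕ) : ℤ), Or.inl rfl, ?_, ?_⟩
    · rw [hdiv, h]; push_cast; ring
    · rw [kap, if_pos (by omega)]
      show _ % 2 = _ % 2
      push_cast
      omega
  · refine ⟨-1, -2 - 2 * ((Q / 8 : ℕ) : ℤ), Or.inr rfl, ?_, ?_⟩
    · rw [hdiv, h]; push_cast; ring
    · rw [kap, if_neg (by omega)]
      show _ % 2 = _ % 2
      push_cast
      omega

/-- The relation modulo `8`. -/
theorem mod8 (hRU : Stmt_RU) (ρ : integralClosure ℤ ℂ →+* AlgebraicClosure (ZMod 2))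
    {q n : ℕ} (hq : Odd q) (Z : Finset ℂ) (e : ℂ → ℕ)
    (B W : ℂ → integralClosure ℤ ℂ) (hB : ∀ z ∈ Z, (B z : ℂ) = z)
    (hW : ∀ z ∈ Z, B z ^ n = 1 + 2 * W z) {K : ℕ} (hK : 0 < K)
    (hrel : (∏ z ∈ Z, z ^ e z) ^ (2 * K) = (q : ℂ) ^ (K * ∑ z ∈ Z, e z)) :
    ∑ z ∈ Z, (e z : AlgebraicClosure (ZMod 2)) * (ρ (W z) + ρ (W z) ^ 2) =
      ((∑ z ∈ Z, e z : ℕ) : AlgebraicClosure (ZMod 2)) *
        ((kap (q ^ n) : ℕ) : AlgebraicClosure (ZMod 2)) := by
  have c2 : ((2 : integralClosure ℤ ℂ) : ℂ) = 2 := rfl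
  have c4 : ((4 : integralClosure ℤ ℂ) : ℂ) = 4 := rfl
  have hq0 : (q : ℂ) ≠ 0 := by
    have : q ≠ 0 := hq.pos.ne'
    exact_mod_cast this
  set E : ℕ := ∑ z ∈ Z, e z with hE
  set PP : ℂ := ∏ z ∈ Z, z ^ e z with hPi
  set ω : ℂ := PP ^ 2 / (q : ℂ) ^ E with hω
  have hωK : ω ^ K = 1 := by
    rw [hω, div_pow, ← pow_mul, hrel, ← pow_mul, mul_comm E K, div_self (pow_ne_zero _ hq0)]
  obtain ⟨σ, k, hσ, hQ, hk⟩ := kap_spec (q ^ n) hq.pow
  have hσ2 : σ ^ 2 = 1 := by rcases hσ with h | h <;> rw [h] <;> norm_num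
  set Y : ℂ → integralClosure ℤ ℂ := fun z => W z + W z ^ 2 with hY
  obtain ⟨U, hU⟩ := prod_form Z Y e
  obtain ⟨V, hV⟩ := pow_form (k : integralClosure ℤ ℂ) E
  -- the `n`-th power of the relation
  have h1 : ((∏ z ∈ Z, (1 + 4 * Y z) ^ e z : integralClosure ℤ ℂ) : ℂ) = (PP ^ 2) ^ n := by
    rw [hPi, ← pow_mul, ← prod_pow]
    push_cast
    refine prod_congr rfl fun z hz => ?_
    have h2 : ((B z ^ n : integralClosure ℤ ℂ) : ℂ) = ((1 + 2 * W z : integralClosure ℤ ℂ) : ℂ) :=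
      by rw [hW z hz]
    push_cast at h2
    rw [hB z hz, c2] at h2
    rw [← pow_mul, show e z * (2 * n) = n * 2 * e z by ring, pow_mul, pow_mul, h2]
    congr 1
    simp only [hY]
    push_cast
    rw [c4]
    ring
  have h3 : (PP ^ 2) ^ n = ω ^ n * ((q : ℂ) ^ n) ^ E := by
    rw [hω, div_pow, ← pow_mul (q : ℂ) n E, mul_comm n E, pow_mul (q : ℂ) E n,
      div_mul_cancel₀ _ (pow_ne_zero _ (pow_ne_zero _ hq0))]
  have hQC : (q : ℂ) ^ n = (σ : ℂ) * (1 + 4 * (k : ℂ)) := by exact_mod_cast hQ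
  have hV' : ((1 : ℂ) + 4 * (k : ℂ)) ^ E = 1 + 4 * (E * (k : ℂ) + 2 * (V : ℂ)) := by
    have h4 := congrArg (fun x : integralClosure ℤ ℂ => (x : ℂ)) hV
    push_cast at h4
    exact h4
  have hσC : ((σ : ℂ)) ^ 2 = 1 := by exact_mod_cast hσ2
  set ω' : ℂ := ω ^ n * (σ : ℂ) ^ E with hω'
  have hω'K : ω' ^ (2 * K) = 1 := by
    rw [hω', mul_pow, ← pow_mul ω, show n * (2 * K) = K * (2 * n) by ring, pow_mul ω, hωK,
      one_pow, ← pow_mul, show E * (2 * K) = 2 * (E * K) by ring, pow_mul, hσC, one_pow, one_mul]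
  have hint : IsIntegral ℤ ω' := by
    refine IsIntegral.of_pow (n := 2 * K) (by omega) ?_
    rw [hω'K]
    exact isIntegral_one
  have h5 : ω' * (1 + 4 * (E * (k : ℂ) + 2 * (V : ℂ))) =
      ((1 + 4 * (∑ z ∈ Z, (e z : integralClosure ℤ ℂ) * Y z + 2 * U) :
        integralClosure ℤ ℂ) : ℂ) := by
    rw [← hU, h1, h3, hQC, mul_pow, hV', hω']
    ring
  set S : integralClosure ℤ ℂ := ∑ z ∈ Z, (e z : integralClosure ℤ ℂ) * Y z + 2 * U with hS
  set ωA : integralClosure ℤ ℂ := ⟨ω', hint⟩ with hωA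
  set R : integralClosure ℤ ℂ := (E : integralClosure ℤ ℂ) * (k : integralClosure ℤ ℂ) + 2 * V
    with hR
  have hRC : (R : ℂ) = E * (k : ℂ) + 2 * (V : ℂ) := by rw [hR]; push_cast; rfl
  have h6 : ω' = 1 + 4 * ((S - R * ωA : integralClosure ℤ ℂ) : ℂ) := by
    push_cast
    have h7 : ((ωA : integralClosure ℤ ℂ) : ℂ) = ω' := rfl
    rw [h7]
    push_cast at h5
    rw [← hRC, c4] at h5
    linear_combination h5
  have h8 : ω' = 1 := hRU ω' (2 * K) (by omega) hω'K _ h6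
  have h9 : R = S := by
    apply Subtype.ext
    push_cast at h5
    rw [h8, one_mul, ← hRC, c4] at h5
    have h10 : (4 : ℂ) * (R : ℂ) = 4 * (S : ℂ) := by linear_combination h5
    exact mul_left_cancel₀ (by norm_num) h10
  have h11 := congrArg ρ h9
  have h2 : (2 : AlgebraicClosure (ZMod 2)) = 0 := CharTwo.two_eq_zero
  have hρ2 : ρ 2 = 0 := by rw [map_ofNat]; exact h2
  rw [hR, hS, map_add, map_add, map_mul ρ 2 V, map_mul ρ 2 U, hρ2, zero_mul, zero_mul, add_zero,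
    add_zero, map_mul, map_natCast, map_intCast, map_sum] at h11
  have h12 : ((k : ℤ) : AlgebraicClosure (ZMod 2)) = ((kap (q ^ n) : ℕ) : _) := by
    have h13 := (CharP.intCast_eq_intCast (AlgebraicClosure (ZMod 2)) 2 (a := k)
      (b := (kap (q ^ n) : ℤ))).2 (by exact_mod_cast hk)
    rw [h13]
    push_cast
    rfl
  rw [h12] at h11
  rw [h11]
  refine sum_congr rfl fun z _ => ?_
  rw [map_mul, map_natCast]
  simp only [hY, map_add, map_pow]

end Pool.Agent.Work.TC.MOD8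

namespace Pool.Agent.Work.TC

open Finset Polynomial Pool.Agent.Work.MP_223b32_ag Pool.Agent.Work.MP_223b32_ag_56 MOD8

theorem stmt_MOD8 (hRU : Stmt_RU) : Stmt_MOD8 := by
  classical
  intro ρ N q _ hq T r β β' w hβ' hw hρw hρ1 hinj hpair s hs M hM hrel
  by_cases hbal : ∀ t i, s.count ((q : ℂ) / β t i) = s.count (β t i)
  · exact Or.inl hbal
  right
  push Not at hbal
  obtain ⟨t0, i0, hne⟩ := hbal
  have hq0 : (q : ℂ) ≠ 0 := by
    have : q ≠ 0 := hq.pos.ne'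
    exact_mod_cast this
  set Z : Finset ℂ := univ.image fun p : Fin T × Fin N => β p.1 p.2 with hZ
  have hZmem : ∀ t i, β t i ∈ Z := fun t i => mem_image.2 ⟨(t, i), mem_univ _, rfl⟩
  have hZ0 : ∀ z ∈ Z, z ≠ 0 := by
    intro z hz h0
    obtain ⟨⟨t, i⟩, -, rfl⟩ := mem_image.1 hz
    obtain ⟨j, hj⟩ := hpair t i
    simp only at h0
    rw [h0, zero_mul] at hj
    exact hq0 hj.symm
  have hdiv : ∀ t i j, β t i * β t j = q → (q : ℂ) / β t i = β t j := by
    intro t i j h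
    rw [← h, mul_div_cancel_left₀ _ (hZ0 _ (hZmem t i))]
  have hσ : ∀ z ∈ Z, (q : ℂ) / z ∈ Z := by
    intro z hz
    obtain ⟨⟨t, i⟩, -, rfl⟩ := mem_image.1 hz
    obtain ⟨j, hj⟩ := hpair t i
    rw [hdiv t i j hj]
    exact hZmem t j
  have hsZ : ∀ z ∈ s, z ∈ Z := by
    intro z hz
    obtain ⟨t, i, rfl⟩ := hs z hz
    exact hZmem t i
  -- a choice of indices
  have hch : ∀ z : ℂ, ∃ p : Fin T × Fin N, z ∈ Z → β p.1 p.2 = z := by
    intro z
    by_cases hz : z ∈ Z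
    · obtain ⟨p, -, hp⟩ := mem_image.1 hz
      exact ⟨p, fun _ => hp⟩
    · exact ⟨(t0, i0), fun h => absurd h hz⟩
  choose p hp using hch
  set d : ℂ → ℕ := fun z => s.count z - s.count ((q : ℂ) / z) with hd
  have hrel1 := relation hq.pos.ne' Z hσ hZ0 s hsZ hrel
  have hex : ∃ z ∈ Z, d z ≠ 0 := by
    obtain ⟨j, hj⟩ := hpair t0 i0
    rcases lt_or_gt_of_ne hne with h | h
    · exact ⟨β t0 i0, hZmem _ _, by simp only [hd]; omega⟩
    · refine ⟨(q : ℂ) / β t0 i0, hσ _ (hZmem _ _), ?_⟩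
      simp only [hd]
      rw [div_div_cancel₀ hq0]
      omega
  obtain ⟨v, e, hde, z1, hz1, hodd⟩ := exists_odd Z _ d le_rfl hex
  have hrel2 : (∏ z ∈ Z, z ^ e z) ^ (2 * (2 ^ v * M)) =
      (q : ℂ) ^ (2 ^ v * M * ∑ z ∈ Z, e z) := by
    have h1 : ∏ z ∈ Z, z ^ (s.count z - s.count ((q : ℂ) / z)) =
        (∏ z ∈ Z, z ^ e z) ^ 2 ^ v := by
      rw [← prod_pow]
      refine prod_congr rfl fun z hz => ?_
      have h2 := hde z hz
      simp only [hd] at h2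
      rw [h2, mul_comm, pow_mul]
    have h3 : ∑ z ∈ Z, (s.count z - s.count ((q : ℂ) / z)) = 2 ^ v * ∑ z ∈ Z, e z := by
      rw [mul_sum]
      exact sum_congr rfl fun z hz => hde z hz
    rw [h1, h3, ← pow_mul] at hrel1
    rw [show 2 * (2 ^ v * M) = 2 ^ v * (2 * M) by ring, hrel1]
    congr 1
    ring
  have hmod := mod8 hRU ρ hq (n := N + 1) Z e (fun z => β' (p z).1 (p z).2)
    (fun z => w (p z).1 (p z).2) (fun z hz => by
      show ((β' (p z).1 (p z).2 : integralClosure ℤ ℂ) : ℂ) = z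
      rw [hβ', hp z hz]) (fun z hz => hw _ _) (K := 2 ^ v * M) (by positivity) hrel2
  -- the odd part
  set X1 : Finset ℂ := Z.filter fun z => Odd (e z) with hX1
  have hcast : ∀ (a : ℕ), (a : AlgebraicClosure (ZMod 2)) = if Odd a then 1 else 0 := by
    intro a
    rw [CharTwo.natCast_eq_ite]
    by_cases h : Even a
    · rw [if_pos h, if_neg (Nat.not_odd_iff_even.2 h)]
    · rw [if_neg h, if_pos (Nat.not_even_iff_odd.1 h)]
  have hsumodd : ∀ F : ℂ → AlgebraicClosure (ZMod 2),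
      ∑ z ∈ Z, (e z : AlgebraicClosure (ZMod 2)) * F z = ∑ z ∈ X1, F z := by
    intro F
    rw [hX1, sum_filter]
    refine sum_congr rfl fun z _ => ?_
    rw [hcast]
    split_ifs <;> simp
  set R : ℂ → AlgebraicClosure (ZMod 2) := fun z => ρ (β' (p z).1 (p z).2) with hR
  set I : Fin T → Finset (AlgebraicClosure (ZMod 2)) :=
    fun t => (X1.filter fun z => (p z).1 = t).image R with hI
  -- two eigenvalues of one curve with the same reduction
  have hinjR : ∀ t, Set.InjOn R (X1.filter fun z => (p z).1 = t) := by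
    intro t x hx y hy hxy
    rw [mem_coe, mem_filter] at hx hy
    have hxZ : x ∈ Z := (mem_filter.1 hx.1).1
    have hyZ : y ∈ Z := (mem_filter.1 hy.1).1
    have h1 : ρ (β' t (p x).2) = ρ (β' t (p y).2) := by
      have h2 := hxy
      simp only [hR] at h2
      rw [hx.2, hy.2] at h2
      exact h2
    have h3 := hinj t h1
    rw [← hp x hxZ, ← hp y hyZ, hx.2, hy.2, h3]
  have hIcard : ∀ t, (I t).card = (X1.filter fun z => (p z).1 = t).card := fun t =>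
    card_image_of_injOn (hinjR t)
  have hcardX : ∑ t, (I t).card = X1.card := by
    rw [card_eq_sum_card_fiberwise (f := fun z => (p z).1) (t := univ)
      (fun _ _ => mem_coe.2 (mem_univ _))]
    exact sum_congr rfl fun t _ => hIcard t
  refine ⟨I, ⟨(p z1).1, ?_⟩, ?_, ?_, ?_⟩
  · refine ⟨R z1, mem_image.2 ⟨z1, mem_filter.2 ⟨mem_filter.2 ⟨hz1, hodd⟩, rfl⟩, rfl⟩⟩
  · -- the cardinality
    rw [hcardX, ← Multiset.sum_count_eq_card (s := Z) hsZ]
    calc X1.card = ∑ z ∈ X1, 1 := by rw [card_eq_sum_ones]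
      _ ≤ ∑ z ∈ X1, s.count z := by
        refine sum_le_sum fun z hz => ?_
        obtain ⟨hzZ, hzodd⟩ := mem_filter.1 hz
        have h1 := hde z hzZ
        have h2 : 0 < 2 ^ v * e z := Nat.mul_pos (by positivity) hzodd.pos
        simp only [hd] at h1
        omega
      _ ≤ ∑ z ∈ Z, s.count z :=
        sum_le_sum_of_subset (filter_subset _ _)
  · -- admissibility
    intro t ζ hζ
    obtain ⟨z, hz, rfl⟩ := mem_image.1 hζ
    obtain ⟨hzX, hzt⟩ := mem_filter.1 hz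
    obtain ⟨hzZ, hzodd⟩ := mem_filter.1 hzX
    refine ⟨(hρ1 _ _).1, (hρ1 _ _).2, ?_⟩
    intro hmem
    obtain ⟨z', hz', hRz'⟩ := mem_image.1 hmem
    obtain ⟨hzX', hzt'⟩ := mem_filter.1 hz'
    obtain ⟨hzZ', hzodd'⟩ := mem_filter.1 hzX'
    obtain ⟨j, hj⟩ := hpair (p z).1 (p z).2
    have h1 : β' (p z).1 (p z).2 * β' (p z).1 j = (q : integralClosure ℤ ℂ) := by
      apply Subtype.ext
      push_cast
      rw [hβ', hβ', hj]
    have h2 : R z * ρ (β' (p z).1 j) = 1 := by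
      simp only [hR]
      rw [← map_mul, h1, map_natCast, hcast, if_pos hq]
    have h3 : ρ (β' (p z).1 j) = (R z)⁻¹ := eq_inv_of_mul_eq_one_right h2
    have h4 : ρ (β' (p z).1 (p z').2) = ρ (β' (p z).1 j) := by
      rw [h3, ← hRz']
      simp only [hR]
      rw [hzt, hzt']
    have h5 := hinj _ h4
    have h6 : z' = (q : ℂ) / z := by
      rw [← hp z hzZ, hdiv _ _ j hj, ← hp z' hzZ', hzt', ← hzt, h5]
    have h7 := hde z hzZ
    have h8 := hde z' hzZ'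
    have h9 : 0 < 2 ^ v * e z := Nat.mul_pos (by positivity) hzodd.pos
    have h10 : 0 < 2 ^ v * e z' := Nat.mul_pos (by positivity) hzodd'.pos
    simp only [hd] at h7 h8
    rw [h6, div_div_cancel₀ hq0] at h8
    rw [← h6] at h8 h7
    omega
  · -- the relation
    have h1 : ∀ t, ∑ ζ ∈ I t, (ZZ (N + 1) (r t) ζ + ZZ (N + 1) (r t) ζ ^ 2) =
        ∑ z ∈ X1.filter (fun z => (p z).1 = t),
          (ρ (w (p z).1 (p z).2) + ρ (w (p z).1 (p z).2) ^ 2) := by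
      intro t
      simp only [hI]
      rw [sum_image (hinjR t)]
      refine sum_congr rfl fun z hz => ?_
      rw [hρw]
      simp only [hR]
      rw [(mem_filter.1 hz).2]
    rw [sum_congr rfl fun t _ => h1 t, sum_fiberwise, ← hsumodd, hmod, ← sum_mul, hcardX]
    have h2 : ((∑ z ∈ Z, e z : ℕ) : AlgebraicClosure (ZMod 2)) = (X1.card : ℕ) := by
      push_cast
      have h3 := hsumodd fun _ => 1
      simp only [mul_one, sum_const, nsmul_eq_mul] at h3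
      exact h3
    rw [h2]
    push_cast
    rfl

end Pool.Agent.Work.TC
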