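import Pool.Agent.Work.MP_223b32_tc.Interface

/-!
# Block LIN: the rank of the linear condition
-/

namespace Pool.Agent.Work.TC.LIN

open Finset Polynomial Pool.Agent.Work.MP_223b32_ag Pool.Agent.Work.MP_223b32_ag_56

variable {G : Type} [Field G]

/-- A gap of length `d` in the orbit of `e0`. -/
theorem gap (E : Finset G) {e0 : G} (he0 : e0 ∈ E) {m d : ℕ}
    (hinj : Set.InjOn (fun s => e0 ^ 2 ^ s) (range m : Set ℕ)) (hm : E.card * (d - 1) < m) :
    ∃ ε ∈ E, ∀ i, 1 ≤ i → i < d → ε ^ 2 ^ i ∉ E := by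
  classical
  by_contra hcon
  push Not at hcon
  have key : ∀ s : ℕ, ∃ ε ∈ E, ∃ i, i < d - 1 ∧ e0 ^ 2 ^ s = ε ^ 2 ^ i := by
    intro s
    induction s with
    | zero =>
      obtain ⟨i, h1, h2, -⟩ := hcon e0 he0
      exact ⟨e0, he0, 0, by omega, rfl⟩
    | succ s ih =>
      obtain ⟨ε, hε, i, hi, hs⟩ := ih
      have h1 : e0 ^ 2 ^ (s + 1) = ε ^ 2 ^ (i + 1) := by
        rw [pow_succ 2 s, pow_mul, hs, ← pow_mul, ← pow_succ]
      by_cases h2 : i + 1 < d - 1
      · exact ⟨ε, hε, i + 1, h2, h1⟩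
      · obtain ⟨i', hi1, hi2, hi3⟩ := hcon ε hε
        refine ⟨_, hi3, i + 1 - i', by omega, ?_⟩
        rw [h1, ← pow_mul, ← pow_add]
        congr 2
        omega
  have h1 : (range m).image (fun s => e0 ^ 2 ^ s) ⊆
      (E ×ˢ range (d - 1)).image (fun p : G × ℕ => p.1 ^ 2 ^ p.2) := by
    intro x hx
    obtain ⟨s, -, rfl⟩ := mem_image.1 hx
    obtain ⟨ε, hε, i, hi, hs⟩ := key s
    exact mem_image.2 ⟨(ε, i), mem_product.2 ⟨hε, mem_range.2 hi⟩, hs.symm⟩
  have h2 := (card_le_card h1).trans card_image_le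
  rw [card_image_of_injOn hinj, card_range, card_product, card_range] at h2
  omega

/-- The number of roots of a linearised polynomial in `z ^ 2 + z`. -/
theorem card_le [CharP G 2] {N : ℕ} {S : Finset ℕ} (h0 : 0 ∈ S)
    (hS : ∀ s ∈ S, s ≤ N) (A : Finset G)
    (hA : ∀ z ∈ A, ∑ s ∈ S, (z ^ 2 + z) ^ 2 ^ s = 0) : A.card ≤ 2 ^ (N + 1) := by
  classical
  set P : G[X] := ∑ s ∈ S, (X ^ 2 + X) ^ 2 ^ s with hP
  have hdeg : P.natDegree ≤ 2 ^ (N + 1) := by
    refine natDegree_sum_le_of_forall_le _ _ fun s hs => ?_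
    refine natDegree_pow_le.trans ?_
    have h1 : (X ^ 2 + X : G[X]).natDegree ≤ 2 := by
      refine (natDegree_add_le _ _).trans ?_
      rw [natDegree_X_pow, natDegree_X]
      norm_num
    calc 2 ^ s * (X ^ 2 + X : G[X]).natDegree ≤ 2 ^ N * 2 :=
          Nat.mul_le_mul (Nat.pow_le_pow_right (by norm_num) (hS s hs)) h1
      _ = 2 ^ (N + 1) := (pow_succ 2 N).symm
  have hco : P.coeff 1 = 1 := by
    rw [hP, finsetSum_coeff, Finset.sum_eq_single_of_mem 0 h0]
    · rw [pow_zero, pow_one, coeff_add, coeff_X_pow, coeff_X_one]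
      norm_num
    · intro s _ hs0
      rw [add_pow_char_pow, ← pow_mul, coeff_add, coeff_X_pow, coeff_X_pow]
      have h1 : 1 < 2 ^ s := Nat.one_lt_pow hs0 (by norm_num)
      rw [if_neg (by omega), if_neg (by omega), add_zero]
  have hP0 : P ≠ 0 := by
    rintro h
    rw [h, coeff_zero] at hco
    exact zero_ne_one hco
  have hsub : A ⊆ P.roots.toFinset := by
    intro z hz
    rw [Multiset.mem_toFinset, mem_roots hP0, IsRoot.def, hP, eval_finsetSum]
    have h1 := hA z hz
    simpa using h1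
  calc A.card ≤ P.roots.toFinset.card := card_le_card hsub
    _ ≤ P.roots.card := Multiset.toFinset_card_le _
    _ ≤ P.natDegree := card_roots' P
    _ ≤ _ := hdeg

/-- The symmetrised power sum. -/
def CC (n : ℕ) (I : Finset G) (k : ℕ) : G := ∑ ζ ∈ I, (ζ ^ k + ζ ^ (n - k))

theorem cc_eq [CharP G 2] (n : ℕ) (I : Finset G) (k : ℕ) :
    cc n I k = CC n I k + CC n I k ^ 2 := by
  rw [cc, CC, sum_pow_char 2, ← sum_add_distrib]
  refine sum_congr rfl fun ζ _ => ?_
  rw [add_pow_char, ← pow_mul, ← pow_mul, mul_comm k 2, mul_comm (n - k) 2]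
  ring

theorem CC_symm {n : ℕ} (I : Finset G) {k : ℕ} (hk : k ≤ n) : CC n I (n - k) = CC n I k := by
  rw [CC, CC]
  refine sum_congr rfl fun ζ _ => ?_
  rw [Nat.sub_sub_self hk, add_comm]

theorem CC_zero [CharP G 2] {n : ℕ} {I : Finset G} (hI : ∀ ζ ∈ I, ζ ^ n = 1) : CC n I 0 = 0 := by
  rw [CC]
  refine sum_eq_zero fun ζ hζ => ?_
  rw [pow_zero, Nat.sub_zero, hI ζ hζ, CharTwo.add_self_eq_zero]

/-- The set `I ∪ I⁻¹`. -/
theorem CC_eq [DecidableEq G] {n : ℕ} {I : Finset G} (hI : Adm n I) {k : ℕ} (hk : k ≤ n) :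
    CC n I k = ∑ ζ ∈ I ∪ I.image (fun x => x⁻¹), ζ ^ k := by
  have hdisj : Disjoint I (I.image (fun x => x⁻¹)) := by
    rw [Finset.disjoint_left]
    intro a ha ha'
    obtain ⟨b, hb, rfl⟩ := mem_image.1 ha'
    exact (hI b hb).2.2 ha
  rw [sum_union hdisj, sum_image (by intro x _ y _ h; exact inv_injective h), CC,
    ← sum_add_distrib]
  refine sum_congr rfl fun ζ hζ => ?_
  congr 1
  have h1 := (hI ζ hζ).1
  have h0 : ζ ≠ 0 := by
    rintro rfl
    rcases Nat.eq_zero_or_pos n with rfl | hn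
    · have : k = 0 := by omega
      subst this
      have := (hI 0 hζ).2.2
      rw [inv_zero] at this
      exact this hζ
    · rw [zero_pow hn.ne'] at h1
      exact zero_ne_one h1
  have h2 : ζ ^ (n - k) * ζ ^ k = 1 := by rw [← pow_add, Nat.sub_add_cancel hk, h1]
  rw [inv_pow]
  exact eq_inv_of_mul_eq_one_left h2

theorem pow_inj {n : ℕ} (hn : n.Prime) {ζ : G} (h1 : ζ ^ n = 1) (h2 : ζ ≠ 1)
    {a b : ℕ} (hab : ζ ^ a = ζ ^ b) : (a : ZMod n) = b := by
  have : Fact n.Prime := ⟨hn⟩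
  have ho : orderOf ζ = n := orderOf_eq_prime h1 h2
  rw [← pow_mod_orderOf, ← pow_mod_orderOf ζ b, ho] at hab
  have h3 := pow_injOn_Iio_orderOf (x := ζ) (by
      rw [ho]; exact Set.mem_Iio.2 (Nat.mod_lt a hn.pos)) (by
      rw [ho]; exact Set.mem_Iio.2 (Nat.mod_lt b hn.pos)) hab
  rw [ZMod.natCast_eq_natCast_iff]
  exact h3

end Pool.Agent.Work.TC.LIN

namespace Pool.Agent.Work.TC

open Finset Polynomial Pool.Agent.Work.MP_223b32_ag Pool.Agent.Work.MP_223b32_ag_56 LIN

theorem stmt_LIN : Stmt_LIN := by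
  classical
  intro G _ _ _ n m hn hn2 hm hG I hIne hI
  have : Fact n.Prime := ⟨hn⟩
  have hchar : CharP G 2 := charP_of_injective_algebraMap (algebraMap (ZMod 2) G).injective 2
  have hfin : Module.finrank (ZMod 2) G = m := by
    have h1 := Module.card_eq_pow_finrank (K := ZMod 2) (V := G)
    rw [hG, ZMod.card] at h1
    exact (Nat.pow_right_injective le_rfl h1).symm
  have hm0 : 0 < m := by
    rcases Nat.eq_zero_or_pos m with h | h
    · rw [h, pow_zero] at hG
      have := Fintype.one_lt_card (α := G)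
      omega
    · exact h
  set E : Finset G := I ∪ I.image (fun x => x⁻¹) with hE
  have hEcard : E.card ≤ 2 * I.card := by
    refine (card_union_le _ _).trans ?_
    have := card_image_le (s := I) (f := fun x => x⁻¹)
    omega
  have hI1 : 1 ≤ I.card := hIne.card_pos
  have hE1 : ∀ ζ ∈ E, ζ ^ n = 1 ∧ ζ ≠ 1 := by
    intro ζ hζ
    rcases mem_union.1 hζ with h | h
    · exact ⟨(hI ζ h).1, (hI ζ h).2.1⟩
    · obtain ⟨b, hb, rfl⟩ := mem_image.1 h
      exact ⟨by rw [inv_pow, (hI b hb).1, inv_one], inv_ne_one.2 (hI b hb).2.1⟩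
  obtain ⟨e0, he0I⟩ := hIne
  have he0 : e0 ∈ E := mem_union_left _ he0I
  have hinj : ∀ ζ ∈ E, Set.InjOn (fun s => ζ ^ 2 ^ s) (range m : Set ℕ) := by
    intro ζ hζ a ha b hb hab
    have h1 := pow_inj hn (hE1 ζ hζ).1 (hE1 ζ hζ).2 hab
    push_cast at h1
    rw [coe_range, Set.mem_Iio, hm] at ha hb
    exact pow_injOn_Iio_orderOf (Set.mem_Iio.2 ha) (Set.mem_Iio.2 hb) h1
  -- the length of the gap
  set w : ℕ := 2 * I.card with hw
  have hw0 : 0 < w := by omega
  set d : ℕ := (m + w - 1) / w with hd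
  have hd1 : m ≤ w * d := by
    have h1 := Nat.div_add_mod (m + w - 1) w
    have h2 := Nat.mod_lt (m + w - 1) hw0
    rw [← hd] at h1
    omega
  have hd2 : w * (d - 1) < m := by
    have h1 : w * d ≤ m + w - 1 := Nat.mul_div_le _ _
    have h2 : 1 ≤ d := by
      rcases Nat.eq_zero_or_pos d with h | h
      · rw [h, mul_zero] at hd1; omega
      · exact h
    have h3 : w * d = w * (d - 1) + w := by
      obtain ⟨d', hd'⟩ := Nat.exists_eq_add_of_le h2
      rw [hd', Nat.add_sub_cancel_left]; ring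
    omega
  have hd3 : 1 ≤ d := by
    rcases Nat.eq_zero_or_pos d with h | h
    · rw [h, mul_zero] at hd1; omega
    · exact h
  have hd4 : d ≤ m := by
    by_contra h
    push Not at h
    have h1 : 1 * (d - 1) ≤ w * (d - 1) := Nat.mul_le_mul_right _ hw0
    omega
  refine ⟨d, hd1, ?_⟩
  obtain ⟨ε, hεE, hε⟩ := gap E he0 (hinj e0 he0) (d := d)
    (lt_of_le_of_lt (Nat.mul_le_mul_right _ hEcard) hd2)
  set S : Finset ℕ := (range m).filter fun s => ∃ ζ ∈ E, ζ ^ 2 ^ s = ε with hS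
  have hS0 : 0 ∈ S := by
    rw [hS, mem_filter, mem_range]
    exact ⟨hm0, ε, hεE, by rw [pow_zero, pow_one]⟩
  have hSle : ∀ s ∈ S, s ≤ m - d := by
    intro s hs
    rw [hS, mem_filter, mem_range] at hs
    obtain ⟨hs1, ζ, hζ, hζε⟩ := hs
    by_contra hcon
    push Not at hcon
    apply hε (m - s) (by omega) (by omega)
    have h1 : ε ^ 2 ^ (m - s) = ζ := by
      rw [← hζε, ← pow_mul, ← pow_add, Nat.add_sub_cancel' hs1.le, ← hG, FiniteField.pow_card]
    rw [h1]
    exact hζ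
  -- the main computation
  have hmain : ∀ z : G, (∀ k ∈ Icc 1 (n / 2),
      Algebra.trace (ZMod 2) G (z ^ 2 * cc n I k) = 0) → ∑ s ∈ S, (z ^ 2 + z) ^ 2 ^ s = 0 := by
    intro z hz
    have h1 : ∀ k ∈ range n, ∑ s ∈ range m, (z ^ 2 + z) ^ 2 ^ s * CC n I k ^ 2 ^ s = 0 := by
      have h2 : ∀ k ∈ Icc 1 (n / 2),
          ∑ s ∈ range m, (z ^ 2 + z) ^ 2 ^ s * CC n I k ^ 2 ^ s = 0 := by
        intro k hk
        have h3 := congrArg (algebraMap (ZMod 2) G) (hz k hk)
        rw [FiniteField.algebraMap_trace_eq_sum_pow, map_zero, hfin, Nat.card_eq_fintype_card,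
          ZMod.card, cc_eq] at h3
        rw [← h3]
        have h4 : ∑ s ∈ range m, (z * CC n I k) ^ 2 ^ s =
            ∑ s ∈ range m, (z * CC n I k) ^ 2 ^ (s + 1) := by
          have h5 : (z * CC n I k) ^ 2 ^ m = (z * CC n I k) ^ 2 ^ 0 := by
            rw [← hG, FiniteField.pow_card, pow_zero, pow_one]
          have h6 := sum_range_succ (fun s => (z * CC n I k) ^ 2 ^ s) m
          rw [sum_range_succ'] at h6
          rw [h5] at h6
          exact (add_right_cancel h6).symm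
        calc ∑ s ∈ range m, (z ^ 2 + z) ^ 2 ^ s * CC n I k ^ 2 ^ s
            = ∑ s ∈ range m, (z ^ 2 * CC n I k) ^ 2 ^ s +
                ∑ s ∈ range m, (z * CC n I k) ^ 2 ^ s := by
              rw [← sum_add_distrib]
              refine sum_congr rfl fun s _ => ?_
              rw [add_pow_char_pow, add_mul, mul_pow, mul_pow]
          _ = ∑ s ∈ range m, (z ^ 2 * (CC n I k + CC n I k ^ 2)) ^ 2 ^ s := by
              rw [h4, ← sum_add_distrib]
              refine sum_congr rfl fun s _ => ?_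
              rw [mul_add, add_pow_char_pow]
              congr 1
              rw [← mul_pow, ← pow_mul, ← pow_succ']
      intro k hk
      rw [mem_range] at hk
      rcases Nat.eq_zero_or_pos k with rfl | hk0
      · refine sum_eq_zero fun s _ => ?_
        rw [CC_zero (fun ζ hζ => (hI ζ hζ).1), zero_pow (by positivity), mul_zero]
      by_cases hk1 : k ≤ n / 2
      · exact h2 k (mem_Icc.2 ⟨hk0, hk1⟩)
      · have h3 := h2 (n - k) (mem_Icc.2 ⟨by omega, by omega⟩)
        rwa [CC_symm I hk.le] at h3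
    -- sum over `k` against `ε ^ (- k)`
    have h7 : ∑ k ∈ range n, ε ^ ((n - 1) * k) *
        ∑ s ∈ range m, (z ^ 2 + z) ^ 2 ^ s * CC n I k ^ 2 ^ s = 0 := by
      refine sum_eq_zero fun k hk => ?_
      rw [h1 k hk, mul_zero]
    have h8 : ∀ s ∈ range m, ∑ k ∈ range n, ε ^ ((n - 1) * k) * CC n I k ^ 2 ^ s =
        if ∃ ζ ∈ E, ζ ^ 2 ^ s = ε then 1 else 0 := by
      intro s _
      have h9 : ∀ k ∈ range n, ε ^ ((n - 1) * k) * CC n I k ^ 2 ^ s =
          ∑ ζ ∈ E, (ε ^ (n - 1) * ζ ^ 2 ^ s) ^ k := by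
        intro k hk
        rw [CC_eq hI (mem_range.1 hk).le, sum_pow_char_pow, mul_sum]
        refine sum_congr rfl fun ζ _ => ?_
        rw [mul_pow, ← pow_mul, ← pow_mul, ← pow_mul, mul_comm k]
      rw [sum_congr rfl h9, sum_comm]
      have hεn : ε ^ n = 1 := (hE1 ε hεE).1
      have hεε : ε ^ (n - 1) * ε = 1 := by
        rw [← pow_succ, Nat.sub_add_cancel hn.one_le, hεn]
      have h10 : ∀ ζ ∈ E, ∑ k ∈ range n, (ε ^ (n - 1) * ζ ^ 2 ^ s) ^ k =
          if ζ ^ 2 ^ s = ε then 1 else 0 := by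
        intro ζ hζ
        split_ifs with h
        · rw [h, hεε]
          simp only [one_pow, sum_const, card_range, nsmul_eq_mul, mul_one]
          have hodd : n % 2 = 1 := by
            rcases hn.eq_two_or_odd with h' | h'
            · exact absurd h' hn2
            · exact h'
          rw [CharP.cast_eq_mod G 2 n, hodd, Nat.cast_one]
        · have h11 := geom_sum_mul (ε ^ (n - 1) * ζ ^ 2 ^ s) n
          rw [mul_pow, ← pow_mul, mul_comm (n - 1) n, pow_mul, hεn, one_pow, ← pow_mul,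
            mul_comm (2 ^ s) n, pow_mul, (hE1 ζ hζ).1, one_pow, mul_one, sub_self] at h11
          rcases mul_eq_zero.1 h11 with h12 | h12
          · exact h12
          · exfalso
            apply h
            have h13 : ε ^ (n - 1) * ζ ^ 2 ^ s = ε ^ (n - 1) * ε := by
              rw [hεε]; exact sub_eq_zero.1 h12
            exact mul_left_cancel₀ (left_ne_zero_of_mul_eq_one hεε) h13
      rw [sum_congr rfl h10]
      split_ifs with h
      · obtain ⟨ζ, hζ, hζε⟩ := h
        rw [sum_eq_single_of_mem ζ hζ, if_pos hζε]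
        intro ζ' _ hne
        rw [if_neg]
        intro h'
        apply hne
        have h14 : ζ' ^ 2 ^ s = ζ ^ 2 ^ s := h'.trans hζε.symm
        have h15 := sub_pow_char_pow (p := 2) ζ' ζ s
        rw [h14, sub_self] at h15
        exact sub_eq_zero.1 (pow_eq_zero_iff (by positivity) |>.1 h15)
      · refine sum_eq_zero fun ζ hζ => ?_
        rw [if_neg]
        intro h'
        exact h ⟨ζ, hζ, h'⟩
    have h16 : ∑ s ∈ range m, (z ^ 2 + z) ^ 2 ^ s *
        (if ∃ ζ ∈ E, ζ ^ 2 ^ s = ε then 1 else 0) = 0 := by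
      refine Eq.trans ?_ h7
      simp only [mul_sum]
      rw [sum_comm]
      refine sum_congr rfl fun s hs => ?_
      rw [← h8 s hs, mul_sum]
      refine sum_congr rfl fun k _ => ?_
      ring
    rw [hS, sum_filter]
    refine Eq.trans (sum_congr rfl fun s _ => ?_) h16
    split_ifs <;> simp
  -- counting
  have hcard : Nat.card {y : G // ∀ k ∈ Icc 1 (n / 2),
      Algebra.trace (ZMod 2) G (y * cc n I k) = 0} ≤ 2 ^ (m - d + 1) := by
    rw [Nat.card_eq_fintype_card, Fintype.card_subtype]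
    have hsq : ∀ y : G, (y ^ 2 ^ (m - 1)) ^ 2 = y := by
      intro y
      rw [← pow_mul, ← pow_succ, Nat.sub_add_cancel hm0, ← hG, FiniteField.pow_card]
    have hinjf : Function.Injective fun y : G => y ^ 2 ^ (m - 1) := by
      intro y y' h
      have h1 := congrArg (fun x => x ^ 2) h
      simp only [hsq] at h1
      exact h1
    rw [← card_image_of_injective _ hinjf]
    refine card_le hS0 hSle _ ?_
    intro z hz
    obtain ⟨y, hy, rfl⟩ := mem_image.1 hz
    apply hmain
    rw [hsq]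
    exact (mem_filter.1 hy).2
  calc _ ≤ 2 ^ (m - d + 1) * 2 ^ d := Nat.mul_le_mul_right _ hcard
    _ = 2 ^ (m + 1) := by
      rw [← pow_add]
      congr 1
      omega

end Pool.Agent.Work.TC
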