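import Pool.Agent.Work.MP_223b32_ag_56.Defs

/-!
# Powers of hyperelliptic curves over a fixed finite field: definitions

`F` is a finite field of odd characteristic with `q` elements, `f` a monic irreducible polynomial
of odd degree `n = 2 g + 1` over `F`, and `C` the smooth projective curve `y ^ 2 = f(x)` of genus
`g`, with one point at infinity.
-/

namespace Pool.Agent.Work.TC

open Finset Polynomial Pool.Agent.Work.MP_223b32_ag Pool.Agent.Work.MP_223b32_ag_56

/-- `α` is the family of the Frobenius eigenvalues of the curve `y ^ 2 = f(x)` (`f` of odd degree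
`N + 1`): for each finite extension `E` of `F`, of degree `k`, the number of solutions of
`y ^ 2 = f(x)` in `E` is `|E| - ∑ α_i ^ k` (there is one more point of the curve, at infinity). -/
def IsFrob (F : Type) [Field F] [Fintype F] (f : F[X]) {N : ℕ} (α : Fin N → ℂ) : Prop :=
  ∀ (E : Type) [Field E] [Fintype E] [Algebra F E],
    (Nat.card {P : E × E // P.2 ^ 2 = aeval P.1 f} : ℂ) =
      (Fintype.card E : ℂ) - ∑ i, α i ^ Module.finrank F E

/-- The analytic Tate property in codimension at most `J` for all products of powers of the
Jacobians of the curves `y ^ 2 = f_t(x)` over all finite extensions of `F` (also after adding a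
supersingular factor). `V` is the `H¹`, `Φ` its (semisimple) Frobenius endomorphism, with
eigenvalues those of the curves and those of the supersingular factor, `n` the degree of the
extension of `F`, `j` the codimension. -/
def TateUpTo (F : Type) [Field F] [Fintype F] (J N : ℕ) {r : ℕ} (f : Fin r → F[X]) : Prop :=
  ∃ α : Fin r → Fin N → ℂ, (∀ t, IsFrob F (f t) (α t)) ∧
    ∀ (V : Type) [AddCommGroup V] [Module ℂ V] [Module.Finite ℂ V] (Φ : Module.End ℂ V),
      Φ.IsSemisimple → ∀ n : ℕ, 0 < n →
      (∀ μ, Φ.HasEigenvalue μ →
        (∃ t i, μ = α t i) ∨ μ ^ (2 * n) = (Fintype.card F : ℂ) ^ n) →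
      ∀ j ≤ J, Holds (Φ ^ n) ((Fintype.card F : ℝ) ^ n) j

/-- The monic irreducible polynomials of degree `n`. -/
def irr (F : Type) [Field F] (n : ℕ) : Set F[X] :=
  {f | f.Monic ∧ Irreducible f ∧ f.natDegree = n}

/-- The `r`-tuples of monic irreducible polynomials of degree `n` without the analytic Tate
property in codimension at most `J`. -/
def exceptional (F : Type) [Field F] [Fintype F] (n r J : ℕ) : Set (Fin r → F[X]) :=
  {f | (∀ t, f t ∈ irr F n) ∧ ¬ TateUpTo F J (n - 1) f}

end Pool.Agent.Work.TC
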